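import Pool.Agent.Lib_helper69.HM.D1

open MeasureTheory Finset
open scoped ENNReal

namespace Pool.Agent.HM

theorem proj_add (N : ℕ) (k : Bool) (x y : ℤ × ℤ) :
    proj N k (x + y) = proj N k x + proj N k y := by
  unfold proj
  rw [Prod.fst_add, Prod.snd_add, add_smul, add_smul]
  abel

theorem proj_zero (N : ℕ) (k : Bool) : proj N k 0 = 0 := by
  unfold proj
  simp

theorem proj_zstp (N : ℕ) (k : Bool) (i : Bool) : proj N k (zstp i) = stpT N k i := by
  unfold proj zstp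
  cases i <;> simp

theorem P1_fst_false (N : ℕ) (x : ℤ × ℤ) : (proj N false x).1 = (x.1 : ZMod (2 * N + 2)) := by
  simp [proj, stpT]

theorem P1_snd_false (N : ℕ) (x : ℤ × ℤ) : (proj N false x).2 = (x.2 : ZMod (2 * N + 2)) := by
  simp [proj, stpT]

theorem P1_fst_true (N : ℕ) (x : ℤ × ℤ) :
    (proj N true x).1 = ((x.1 + x.2 : ℤ) : ZMod (2 * N + 2)) := by
  simp [proj, stpT]

theorem P1_snd_true (N : ℕ) (x : ℤ × ℤ) :
    (proj N true x).2 = ((x.1 - x.2 : ℤ) : ZMod (2 * N + 2)) := by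
  simp [proj, stpT, sub_eq_add_neg]

theorem P1_small {N : ℕ} {a b : ℤ} (h : (a : ZMod (2 * N + 2)) = (b : ZMod (2 * N + 2)))
    (h1 : |a - b| < 2 * N + 2) : a = b := by
  have h2 := (ZMod.intCast_eq_intCast_iff_dvd_sub a b (2 * N + 2)).1 h
  obtain ⟨c, hc⟩ := h2
  push_cast at hc
  rw [abs_lt] at h1
  have h3 : c = 0 := by
    by_contra h0
    rcases lt_or_gt_of_ne h0 with h4 | h4
    · have h5 : c ≤ -1 := by omega
      nlinarith
    · have h5 : 1 ≤ c := by omega
      nlinarith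
  rw [h3] at hc
  omega

theorem P1_mem_box {n : ℕ} {x : ℤ × ℤ} :
    x ∈ box n ↔ (-(n : ℤ) ≤ x.1 ∧ x.1 ≤ n) ∧ (-(n : ℤ) ≤ x.2 ∧ x.2 ≤ n) := by
  unfold box
  rw [Finset.mem_product, Finset.mem_Icc, Finset.mem_Icc]

/-- the projection is injective on boxes which are small compared with the torus -/
theorem proj_inj {N n : ℕ} (h : 2 * n ≤ N) (k : Bool) :
    Set.InjOn (proj N k) (box n : Set (ℤ × ℤ)) := by
  intro x hx y hy hxy
  rw [Finset.mem_coe, P1_mem_box] at hx hy
  obtain ⟨⟨a1, a2⟩, a3, a4⟩ := hx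
  obtain ⟨⟨b1, b2⟩, b3, b4⟩ := hy
  have h' : 2 * (n : ℤ) ≤ N := by exact_mod_cast h
  cases k with
  | false =>
    have e1 : (x.1 : ZMod (2 * N + 2)) = (y.1 : ZMod (2 * N + 2)) := by
      rw [← P1_fst_false, ← P1_fst_false, hxy]
    have e2 : (x.2 : ZMod (2 * N + 2)) = (y.2 : ZMod (2 * N + 2)) := by
      rw [← P1_snd_false, ← P1_snd_false, hxy]
    have f1 := P1_small e1 (by rw [abs_lt]; constructor <;> linarith)
    have f2 := P1_small e2 (by rw [abs_lt]; constructor <;> linarith)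
    exact Prod.ext f1 f2
  | true =>
    have e1 : ((x.1 + x.2 : ℤ) : ZMod (2 * N + 2)) = ((y.1 + y.2 : ℤ) : ZMod (2 * N + 2)) := by
      rw [← P1_fst_true, ← P1_fst_true, hxy]
    have e2 : ((x.1 - x.2 : ℤ) : ZMod (2 * N + 2)) = ((y.1 - y.2 : ℤ) : ZMod (2 * N + 2)) := by
      rw [← P1_snd_true, ← P1_snd_true, hxy]
    have f1 := P1_small e1 (by rw [abs_lt]; constructor <;> linarith)
    have f2 := P1_small e2 (by rw [abs_lt]; constructor <;> linarith)
    exact Prod.ext (by omega) (by omega)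

theorem P1_step {n : ℕ} {x : ℤ × ℤ} (hx : x ∈ box n) (i : Bool) :
    x ∈ box (n + 1) ∧ x + zstp i ∈ box (n + 1) ∧ x - zstp i ∈ box (n + 1) := by
  rw [P1_mem_box] at hx
  rw [P1_mem_box, P1_mem_box, P1_mem_box, Prod.fst_add, Prod.snd_add, Prod.fst_sub, Prod.snd_sub]
  push_cast
  cases i with
  | false =>
    have h1 : (zstp false).1 = 1 := rfl
    have h2 : (zstp false).2 = 0 := rfl
    rw [h1, h2]
    omega
  | true =>
    have h1 : (zstp true).1 = 0 := rfl
    have h2 : (zstp true).2 = 1 := rfl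
    rw [h1, h2]
    omega

/-- neighbours of a set in the box `n` are in the box `n + 1` -/
theorem box_nbr {n : ℕ} {Ω : Finset (ℤ × ℤ)} (h : Ω ⊆ box n) {p : (ℤ × ℤ) × Bool}
    (hp : p ∈ edges zstp Ω) : p.1 ∈ box (n + 1) ∧ p.1 + zstp p.2 ∈ box (n + 1) := by
  rw [mem_edges] at hp
  rcases hp with h1 | h1
  · have h2 := P1_step (h h1) p.2
    exact ⟨h2.1, h2.2.1⟩
  · have h2 := P1_step (h h1) p.2
    refine ⟨?_, h2.1⟩
    have h3 := h2.2.2
    rwa [add_sub_cancel_right] at h3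

theorem P1_edges (N : ℕ) (k : Bool) (Ω : Finset (ℤ × ℤ)) :
    edges (stpT N k) (Ω.image (proj N k)) =
      (edges zstp Ω).image (fun p => (proj N k p.1, p.2)) := by
  ext q
  rw [mem_edges]
  constructor
  · rintro (h | h)
    · obtain ⟨x, hx, hxq⟩ := Finset.mem_image.1 h
      exact Finset.mem_image.2 ⟨(x, q.2), mem_edges.2 (Or.inl hx), Prod.ext hxq rfl⟩
    · obtain ⟨x, hx, hxq⟩ := Finset.mem_image.1 h
      refine Finset.mem_image.2 ⟨(x - zstp q.2, q.2), mem_edges.2 (Or.inr ?_), Prod.ext ?_ rfl⟩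
      · show x - zstp q.2 + zstp q.2 ∈ Ω
        rwa [sub_add_cancel]
      · show proj N k (x - zstp q.2) = q.1
        have h1 : proj N k (x - zstp q.2) + proj N k (zstp q.2) = proj N k x := by
          rw [← proj_add, sub_add_cancel]
        rw [proj_zstp, hxq] at h1
        exact add_right_cancel h1
  · intro hq
    obtain ⟨p, hp, rfl⟩ := Finset.mem_image.1 hq
    rcases mem_edges.1 hp with h | h
    · exact Or.inl (Finset.mem_image_of_mem _ h)
    · right
      show proj N k p.1 + stpT N k p.2 ∈ _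
      rw [← proj_zstp, ← proj_add]
      exact Finset.mem_image_of_mem _ h

/-- the weight in the image of `Ω` is the weight in `Ω` of the pulled back field -/
theorem wt_proj (ρ : ℝ → ℝ) (m : ℝ) {N n : ℕ} (h : 2 * (n + 1) ≤ N) (k : Bool)
    {Ω : Finset (ℤ × ℤ)} (hΩ : Ω ⊆ box n) (f : Tor N → ℝ) :
    wt ρ m (stpT N k) (Ω.image (proj N k)) f = wt ρ m zstp Ω (f ∘ proj N k) := by
  unfold wt
  rw [P1_edges]
  congr 1
  · rw [Finset.prod_image]
    · refine Finset.prod_congr rfl fun p _ => ?_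
      show ENNReal.ofReal (ρ (f (proj N k p.1 + stpT N k p.2) - f (proj N k p.1))) = _
      rw [← proj_zstp, ← proj_add]
      rfl
    · intro p hp q hq hpq
      have h1 := (box_nbr hΩ (Finset.mem_coe.1 hp)).1
      have h2 := (box_nbr hΩ (Finset.mem_coe.1 hq)).1
      have h3 : proj N k p.1 = proj N k q.1 := (Prod.ext_iff.1 hpq).1
      have h4 : p.2 = q.2 := (Prod.ext_iff.1 hpq).2
      exact Prod.ext (proj_inj h k (Finset.mem_coe.2 h1) (Finset.mem_coe.2 h2) h3) h4
  · rw [Finset.prod_image]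
    · rfl
    · intro x hx y hy hxy
      exact proj_inj (by omega : 2 * n ≤ N) k (Finset.mem_coe.2 (hΩ (Finset.mem_coe.1 hx)))
        (Finset.mem_coe.2 (hΩ (Finset.mem_coe.1 hy))) hxy

end Pool.Agent.HM
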